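import Pool.Agent.H21.GS3.TE

/-!
# Theorem (G), section 3a, group E: lemmas
-/

set_option autoImplicit false

open Finset Pool.Agent.H6.N4D Pool.Agent.H78.GS

namespace Pool.Agent.H21.GS3

/-- every sheet over `t` has a continuation over `t + D` with nearly the same flat frequency -/
def HA (S : Par) (δ : ℝ) (θ : ℤ → ℕ → ℝ) (F : ℤ → Finset ℕ) (T : ℝ) (D : ℕ) (t : ℤ) : Prop :=
  ∀ j ∈ F t, ∃ i ∈ F (t + D), nd (fh S θ T (t + D) i - fh S θ T t j) ≤ δ / (S.rho * S.x t)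

lemma x_div (S : Par) (T : ℝ) (t : ℤ) (D : ℕ) :
    T / S.x (t + D) = T / S.x t + T * (Real.exp (-(S.h * D)) - 1) / S.x t := by
  have hx : S.x (t + (D : ℤ)) = S.x t * Real.exp (S.h * D) := by
    rw [Par.x_add]; push_cast; ring_nf
  have h0 : 0 < S.x t := Par.x_pos t
  rw [hx, Real.exp_neg]
  have h1 : 0 < Real.exp (S.h * D) := Real.exp_pos _
  field_simp
  ring

lemma HA_cnt (S : Par) (Δ : ℤ) (e₁ κ' ν T : ℝ) (N D : ℕ) (θ : ℤ → ℕ → ℝ) (F : ℤ → Finset ℕ)
    (he : 0 < e₁) (hr : 0 < S.rho) (h : HT (cut S Δ) e₁ κ' ν θ F T N) (hD : D ≤ N) :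
    (cut S Δ).cnt (fun t => ¬ HA S (ν * e₁) θ F T D t) ≤ κ' * (cut S Δ).N := by
  refine le_trans (Par.cnt_mono fun t _ ht => ?_) (h D hD)
  unfold HA at ht
  push Not at ht
  obtain ⟨j, hj, hi⟩ := ht
  refine ⟨j, hj, fun i hi' => ?_⟩
  have h1 := hi i hi'
  have hx : 0 < S.x t := Par.x_pos t
  have hrx : 0 < S.rho * S.x t := mul_pos hr hx
  have h2 : ds (cut S Δ) e₁ θ D (T * (Real.exp (-((cut S Δ).h * D)) - 1)) t j i =
      S.rho * S.x t / e₁ * nd (fh S θ T (t + D) i - fh S θ T t j) := by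
    show S.rho * S.x t / e₁ * nd (θ (t + D) i - θ t j -
      T * (Real.exp (-(S.h * D)) - 1) / S.x t) = _
    congr 2
    unfold fh
    rw [x_div]
    ring
  rw [h2]
  have h3 : ν = S.rho * S.x t / e₁ * (ν * e₁ / (S.rho * S.x t)) := by
    field_simp
  calc ν = S.rho * S.x t / e₁ * (ν * e₁ / (S.rho * S.x t)) := h3
    _ < S.rho * S.x t / e₁ * nd (fh S θ T (t + D) i - fh S θ T t j) :=
      mul_lt_mul_of_pos_left h1 (div_pos hrx he)

/-- the continuation is onto -/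
lemma HA_surj (S : Par) (δ : ℝ) (θ : ℤ → ℕ → ℝ) (F : ℤ → Finset ℕ) (T : ℝ) (D s : ℕ) (t : ℤ)
    (hr : 0 < S.rho) (hδ : δ < 1 / 2) (h : HA S δ θ F T D t) (h1 : (F t).card = s)
    (h2 : (F (t + D)).card = s)
    (hs : ∀ i ∈ F t, ∀ j ∈ F t, i ≠ j → 1 / (S.rho * S.x t) ≤ nd (θ t i - θ t j)) :
    ∀ i ∈ F (t + D), ∃ j ∈ F t,
      nd (fh S θ T (t + D) i - fh S θ T t j) ≤ δ / (S.rho * S.x t) := by
  classical
  have hx : 0 < S.x t := Par.x_pos t
  have hrx : 0 < S.rho * S.x t := mul_pos hr hx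
  choose! f hf using h
  have hinj : Set.InjOn f (F t : Set ℕ) := by
    intro j hj j' hj' he
    by_contra hne
    have a1 := (hf j hj).2
    have a2 := (hf j' hj').2
    rw [← he] at a2
    have a3 := hs j hj j' hj' hne
    have a4 : nd (θ t j - θ t j') ≤ 2 * (δ / (S.rho * S.x t)) := by
      have e1 : θ t j - θ t j' = fh S θ T t j - fh S θ T t j' := by unfold fh; ring
      rw [e1]
      calc nd (fh S θ T t j - fh S θ T t j') ≤ nd (fh S θ T t j - fh S θ T (t + D) (f j)) +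
            nd (fh S θ T (t + D) (f j) - fh S θ T t j') := nd_tri _ _ _
        _ ≤ _ := by rw [nd_sub_comm (fh S θ T t j)]; linarith
    have a5 : 2 * (δ / (S.rho * S.x t)) < 1 / (S.rho * S.x t) := by
      rw [← mul_div_assoc]
      exact (div_lt_div_iff_of_pos_right hrx).2 (by linarith)
    linarith
  have himg : (F t).image f = F (t + D) := by
    apply Finset.eq_of_subset_of_card_le
    · intro y hy
      obtain ⟨j, hj, rfl⟩ := mem_image.1 hy
      exact (hf j hj).1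
    · rw [card_image_of_injOn hinj, h1, h2]
  intro i hi
  rw [← himg] at hi
  obtain ⟨j, hj, rfl⟩ := mem_image.1 hi
  exact ⟨j, hj, (hf j hj).2⟩

/-- the edge of `q` in terms of the flat frequencies -/
lemma RE_fh (S : Par) (e₀ e₁ T : ℝ) (θ φ : ℤ → ℕ → ℝ) (q : ℕ) (t : ℤ) (j i : ℕ) (hq : 1 ≤ q)
    (hr : 0 < S.rho) (hr1 : S.rho ≤ 1) (hh : 0 < S.h) (hh4 : S.h ≤ S.rho ^ 4)
    (hl : |S.h * S.l q - Real.log q| ≤ S.h / 2) (he0 : e₀ ≤ 1) (he1 : e₁ ≤ 1)
    (hT : |T| ≤ e₁ / S.rho ^ 2) (h : RE S e₀ θ φ q t j i) :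
    nd (fh S θ T (t - S.l q) i - q * fh S θ T t j) ≤ 2 * q / (S.rho * S.x t) := by
  have hx : 0 < S.x t := Par.x_pos t
  have hrx : 0 < S.rho * S.x t := mul_pos hr hx
  have hq0 : (0 : ℝ) < q := by exact_mod_cast hq
  have h1 := h.1
  have hx' : S.x (t - S.l q) = S.x t * Real.exp (-(S.h * S.l q)) := Par.x_sub t _
  -- the error
  have herr : |T / S.x (t - S.l q) - q * (T / S.x t)| ≤ q / (S.rho * S.x t) := by
    set δ := S.h * S.l q - Real.log q with hδ
    have e1 : Real.exp (S.h * S.l q) = q * Real.exp δ := by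
      rw [hδ, show S.h * (S.l q : ℝ) - Real.log q = -Real.log q + S.h * S.l q by ring,
        Real.exp_add, Real.exp_neg, Real.exp_log hq0]
      field_simp
    have e2 : T / S.x (t - S.l q) - q * (T / S.x t) = q * (T / S.x t) * (Real.exp δ - 1) := by
      rw [hx', Real.exp_neg]
      have : 0 < Real.exp (S.h * S.l q) := Real.exp_pos _
      have e3 : T / (S.x t * (Real.exp (S.h * S.l q))⁻¹) = T / S.x t * Real.exp (S.h * S.l q) := by
        field_simp
      rw [e3, e1]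
      ring
    have hδ1 : |δ| ≤ 1 := by
      have : S.rho ^ 4 ≤ 1 := pow_le_one₀ hr.le hr1
      linarith
    have e4 : |Real.exp δ - 1| ≤ 2 * |δ| := Real.abs_exp_sub_one_le hδ1
    have e5 : |T| * S.h ≤ 1 := by
      have hr2 : 0 < S.rho ^ 2 := by positivity
      have : |T| ≤ 1 / S.rho ^ 2 := hT.trans (by gcongr)
      calc |T| * S.h ≤ 1 / S.rho ^ 2 * S.rho ^ 4 := by gcongr
        _ = S.rho ^ 2 := by field_simp
        _ ≤ 1 := pow_le_one₀ hr.le hr1
    rw [e2, abs_mul, abs_mul, abs_div, abs_of_pos hq0, abs_of_pos hx]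
    have e6 : |Real.exp δ - 1| ≤ S.h := by linarith
    calc (q : ℝ) * (|T| / S.x t) * |Real.exp δ - 1| ≤ q * (|T| / S.x t) * S.h := by gcongr
      _ = q * (|T| * S.h) / S.x t := by ring
      _ ≤ q * 1 / S.x t := by gcongr
      _ ≤ q * (1 / S.rho) / S.x t := by
        gcongr
        rw [le_div_iff₀ hr]; linarith
      _ = q / (S.rho * S.x t) := by field_simp
  have h2 : fh S θ T (t - S.l q) i - q * fh S θ T t j =
      (θ (t - S.l q) i - q * θ t j) - (T / S.x (t - S.l q) - q * (T / S.x t)) := by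
    unfold fh; ring
  rw [h2]
  calc nd ((θ (t - S.l q) i - q * θ t j) - (T / S.x (t - S.l q) - q * (T / S.x t)))
      ≤ nd (θ (t - S.l q) i - q * θ t j) + nd (T / S.x (t - S.l q) - q * (T / S.x t)) :=
        nd_sub_le _ _
    _ ≤ q * e₀ / (S.rho * S.x t) + q / (S.rho * S.x t) :=
        add_le_add h1 ((nd_le_abs _).trans herr)
    _ ≤ q * 1 / (S.rho * S.x t) + q / (S.rho * S.x t) := by gcongr
    _ = 2 * q / (S.rho * S.x t) := by ring

/-- counting on the inner stretch -/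
lemma cut_cnt (S : Par) (Δ : ℤ) (hΔ : 0 ≤ Δ) (E : ℤ → Prop) : (cut S Δ).cnt E ≤ S.cnt E := by
  unfold Par.cnt
  rw [Nat.cast_le]
  refine card_le_card fun t ht => ?_
  rw [Par.mem_fl, Par.mem_I] at ht
  rw [Par.mem_fl, Par.mem_I]
  have h1 : (cut S Δ).a = S.a + Δ := rfl
  have h2 : (cut S Δ).b = S.b - Δ := rfl
  rw [h1, h2] at ht
  exact ⟨⟨by omega, by omega⟩, ht.2⟩

lemma cut_mem (S : Par) (Δ : ℤ) {t : ℤ} : t ∈ (cut S Δ).I ↔ S.a + Δ ≤ t ∧ t < S.b - Δ := by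
  rw [Par.mem_I]; rfl

/-- counting on the inner stretch along a shift -/
lemma cut_cnt_shift (S : Par) (Δ v : ℤ) (hΔ : 0 ≤ Δ) (hv : |v| ≤ Δ) (E : ℤ → Prop) :
    (cut S Δ).cnt (fun t => E (t + v)) ≤ S.cnt E := by
  refine le_trans ?_ (Par.cnt_shift E v)
  refine le_trans (Par.cnt_mono (F := fun t => t + v ∈ S.I ∧ E (t + v)) fun t ht h => ⟨?_, h⟩)
    (cut_cnt S Δ hΔ _)
  rw [cut_mem] at ht
  rw [Par.mem_I]
  have := abs_le.1 hv
  constructor <;> omega

end Pool.Agent.H21.GS3
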