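import Pool.Agent.H21.GS3.PREa

/-!
# Theorem (G), section 3a, group E: one point, and the mean over the points
-/

set_option autoImplicit false

open Finset Pool.Agent.H6.N4D Pool.Agent.H78.GS

namespace Pool.Agent.H21.GS3

/-- the inequality of Markov, over the prime numbers -/
lemma markov (S : Par) (A : Finset ℕ) (w : ℕ → ℝ) (B : ℕ → ℤ → Prop) (G : ℤ → Prop)
    (hw : ∀ q ∈ A, 0 ≤ w q)
    (h : ∀ t ∈ S.I, G t → ∀ A' ⊆ A, (∀ q ∈ A, B q t → q ∈ A') → 1 / 8 ≤ ∑ q ∈ A', w q) :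
    S.cnt G ≤ 8 * ∑ q ∈ A, w q * S.cnt (B q) := by
  classical
  have h1 : ∀ t ∈ S.fl G, (1 / 8 : ℝ) ≤ ∑ q ∈ A, if B q t then w q else 0 := by
    intro t ht
    rw [Par.mem_fl] at ht
    rw [← Finset.sum_filter]
    exact h t ht.1 ht.2 _ (filter_subset _ _) fun q hq hb => mem_filter.2 ⟨hq, hb⟩
  have h2 : (1 / 8 : ℝ) * S.cnt G ≤ ∑ t ∈ S.fl G, ∑ q ∈ A, if B q t then w q else 0 := by
    calc (1 / 8 : ℝ) * S.cnt G = ∑ t ∈ S.fl G, (1 / 8 : ℝ) := by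
          rw [sum_const, nsmul_eq_mul, mul_comm]; rfl
      _ ≤ _ := sum_le_sum h1
  rw [sum_comm] at h2
  have h3 : ∀ q ∈ A, (∑ t ∈ S.fl G, if B q t then w q else 0) ≤ w q * S.cnt (B q) := by
    intro q hq
    rw [← Finset.sum_filter, sum_const, nsmul_eq_mul, mul_comm]
    refine mul_le_mul_of_nonneg_left ?_ (hw q hq)
    unfold Par.cnt
    rw [Nat.cast_le]
    refine card_le_card fun t ht => ?_
    rw [mem_filter, Par.mem_fl] at ht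
    rw [Par.mem_fl]
    exact ⟨ht.1.1, ht.2⟩
  have h4 := h2.trans (sum_le_sum h3)
  linarith

/-- the conclusion of `T_RAT` at one `X` -/
def RatX (X : ℝ) (r₀ b₀ : ℕ) : Prop :=
  ∀ (A : Finset ℕ) (β e : ℝ) (γ : ℕ → ℝ) (ι : ℕ → ℕ), A ⊆ Pr (PP X) (PP X ^ 2) →
    1 / 8 ≤ ∑ p ∈ A, 1 / (p : ℝ) → 0 ≤ e → e ≤ 1 / (8 * PP X ^ 4) →
    (∀ p ∈ A, ι p < r₀ ∧ nd (p * β - γ (ι p)) ≤ e) →
    ∃ b a : ℕ, 1 ≤ b ∧ b ≤ b₀ ∧ a < b ∧ Nat.Coprime a b ∧ nd (β - (a : ℝ) / b) ≤ 2 * e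

/-- one point -/
lemma point (S : Par) (r₀ b₀ s m : ℕ) (e₀ e₁ δ T : ℝ) (F : ℤ → Finset ℕ) (θ φ : ℤ → ℕ → ℝ)
    (t : ℤ) (A : Finset ℕ) (hR : RatX S.X r₀ b₀) (hsub : ∀ t, F t ⊆ range r₀)
    (hr : 0 < S.rho) (hr1 : S.rho ≤ 1) (hh : 0 < S.h) (hh4 : S.h ≤ S.rho ^ 4)
    (hl : ∀ p : ℕ, 1 ≤ p → |S.h * S.l p - Real.log p| ≤ S.h / 2) (he0 : e₀ ≤ 1) (he1 : e₁ ≤ 1)
    (hT : |T| ≤ e₁ / S.rho ^ 2) (hP : 100 ≤ S.P) (hPx : S.P ^ 100 ≤ S.rho * S.x t)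
    (hm : S.h * m ≤ 3 * S.L) (hδ0 : 0 ≤ δ) (hδ : δ < 1 / 2) (hA : A ⊆ Pr S.P (S.P ^ 2))
    (hw : 1 / 8 ≤ ∑ p ∈ A, 1 / (p : ℝ))
    (hs : ∀ i ∈ F (t - m), ∀ j ∈ F (t - m), i ≠ j →
      1 / (S.rho * S.x (t - m)) ≤ nd (θ (t - m) i - θ (t - m) j))
    (hg : ∀ q ∈ A, (∀ j ∈ F t, ∃ i ∈ F (t - S.l q), RE S e₀ θ φ q t j i) ∧
      ∃ D : ℕ, (t - m + D : ℤ) = t - S.l q ∧ HA S δ θ F T D (t - m) ∧
        (F (t - m)).card = s ∧ (F (t - S.l q)).card = s) :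
    ∀ j ∈ F t, ∃ b a : ℕ, 1 ≤ b ∧ b ≤ b₀ ∧
      nd (fh S θ T t j - (a : ℝ) / b) ≤ 2 * (S.P ^ 3 / (S.rho * S.x t)) := by
  intro j hj
  have hx : 0 < S.x t := Par.x_pos t
  have hrx : 0 < S.rho * S.x t := mul_pos hr hx
  have hP0 : 0 < S.P := by linarith
  have hP1 : 1 ≤ S.P := by linarith
  have key : ∀ q ∈ A, ∃ i ∈ F (t - m),
      nd (q * fh S θ T t j - fh S θ T (t - m) i) ≤ S.P ^ 3 / (S.rho * S.x t) := by
    intro q hq
    obtain ⟨h1, D, hD, hHA, hc1, hc2⟩ := hg q hq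
    have hqm := (mem_Pr (by positivity : (0 : ℝ) ≤ S.P ^ 2)).1 (hA hq)
    have hq1 : 1 ≤ q := hqm.2.2.one_lt.le
    obtain ⟨i, hi, hRE⟩ := h1 j hj
    have h2 := RE_fh S e₀ e₁ T θ φ q t j i hq1 hr hr1 hh hh4 (hl q hq1) he0 he1 hT hRE
    rw [← hD] at hi hc2 h2
    obtain ⟨i', hi', h3⟩ := HA_surj S δ θ F T D s (t - m) hr hδ hHA hc1 hc2 hs i hi
    refine ⟨i', hi', ?_⟩
    have h4 : δ / (S.rho * S.x (t - m)) ≤ (1 / 2) * S.P ^ 3 / (S.rho * S.x t) := by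
      have hxm : S.x (t - (m : ℤ)) = S.x t * Real.exp (-(S.h * m)) := by
        rw [Par.x_sub]; push_cast; rfl
      have hle : Real.exp (S.h * m) ≤ S.P ^ 3 := by
        rw [Par.P_pow]
        apply Real.exp_le_exp.2
        push_cast
        linarith
      have e1 : δ / (S.rho * S.x (t - (m : ℤ))) = δ * Real.exp (S.h * m) / (S.rho * S.x t) := by
        rw [hxm, Real.exp_neg]
        have : 0 < Real.exp (S.h * m) := Real.exp_pos _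
        field_simp
      rw [e1]
      apply div_le_div_of_nonneg_right _ hrx.le
      exact mul_le_mul hδ.le hle (Real.exp_pos _).le (by norm_num)
    have h5 : 2 * (q : ℝ) / (S.rho * S.x t) ≤ (1 / 2) * S.P ^ 3 / (S.rho * S.x t) := by
      apply div_le_div_of_nonneg_right _ hrx.le
      have : (q : ℝ) ≤ S.P ^ 2 := hqm.2.1
      have h6 : S.P ^ 2 * 4 ≤ S.P ^ 3 := by
        rw [pow_succ S.P 2]
        gcongr
        linarith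
      linarith
    have e3 : (q : ℝ) * fh S θ T t j - fh S θ T (t - m) i' =
        -(fh S θ T (t - m + D) i - q * fh S θ T t j) +
          (fh S θ T (t - m + D) i - fh S θ T (t - m) i') := by ring
    rw [e3]
    calc nd (-(fh S θ T (t - m + D) i - q * fh S θ T t j) +
          (fh S θ T (t - m + D) i - fh S θ T (t - m) i'))
        ≤ nd (-(fh S θ T (t - m + D) i - q * fh S θ T t j)) +
          nd (fh S θ T (t - m + D) i - fh S θ T (t - m) i') := nd_add_le _ _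
      _ ≤ (1 / 2) * S.P ^ 3 / (S.rho * S.x t) + (1 / 2) * S.P ^ 3 / (S.rho * S.x t) := by
          rw [nd_neg]
          exact add_le_add (h2.trans h5) (h3.trans h4)
      _ = _ := by ring
  choose! ι hι using key
  have he : S.P ^ 3 / (S.rho * S.x t) ≤ 1 / (8 * PP S.X ^ 4) := by
    show S.P ^ 3 / (S.rho * S.x t) ≤ 1 / (8 * S.P ^ 4)
    rw [div_le_div_iff₀ hrx (by positivity)]
    have : (8 : ℝ) ≤ S.P ^ 93 := by
      calc (8 : ℝ) ≤ S.P ^ 1 := by rw [pow_one]; linarith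
        _ ≤ S.P ^ 93 := pow_le_pow_right₀ hP1 (by norm_num)
    calc S.P ^ 3 * (8 * S.P ^ 4) = 8 * S.P ^ 7 := by ring
      _ ≤ S.P ^ 93 * S.P ^ 7 := by gcongr
      _ = S.P ^ 100 := by ring
      _ ≤ 1 * (S.rho * S.x t) := by rw [one_mul]; exact hPx
  obtain ⟨b, a, hb1, hb2, -, -, hnd⟩ := hR A (fh S θ T t j) (S.P ^ 3 / (S.rho * S.x t))
    (fun i => fh S θ T (t - m) i) ι hA hw (by positivity) he
    (fun q hq => ⟨mem_range.1 (hsub _ (hι q hq).1), (hι q hq).2⟩)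
  exact ⟨b, a, hb1, hb2, hnd⟩

end Pool.Agent.H21.GS3
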