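import Pool.Agent.H78.GS.TA3
import Pool.Agent.H83.GS.TX2

/-!
# Theorem (G), section 3a, group E: almost all sheets lie at fractions with small denominators
-/

set_option autoImplicit false

open Finset Pool.Agent.H6.N4D Pool.Agent.H78.GS

namespace Pool.Agent.H21.GS3

/-- PRE. Almost all sheets lie at fractions with small denominators, with precision. -/
def T_PRE : Prop := ∀ r₀ : ℕ, 1 ≤ r₀ → ∃ (b₀ : ℕ) (C₃ : ℝ), 1 ≤ b₀ ∧ 1 ≤ C₃ ∧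
  ∀ (K : ℕ) (e₁ ν : ℝ), 200 ≤ K → 0 < e₁ → e₁ ≤ 1 / 16 → 0 < ν → ν ≤ 1 / 100 → ∃ X₀ : ℝ,
    ∀ (S : Par) (Δ : ℤ) (s N : ℕ) (e e₀ κ κ' T : ℝ) (F : ℤ → Finset ℕ) (θ φ : ℤ → ℕ → ℝ),
      S.K = K → X₀ ≤ S.X → Ctx S Δ r₀ s e e₀ κ F θ φ → e ≤ 1 / K → e₀ ≤ 1 →
      |T| ≤ e₁ / S.rho ^ 2 → 5 * S.L ≤ N * S.h → (N : ℤ) ≤ Δ →
      HT (cut S Δ) e₁ κ' ν θ F T N →
      (cut S Δ).cnt (fun t => ∃ j ∈ F t, ∀ b a : ℕ, 1 ≤ b → b ≤ b₀ →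
        ¬ At S e₁ (2 * ν) θ T b a t j) ≤ C₃ * (κ + κ' + 1 / K) * (cut S Δ).N

end Pool.Agent.H21.GS3
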